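import Mathlib
import Pool.Agent.N735.IT.Exact

/-!
# Exact patterns among the first 106 iterated equations
-/

set_option autoImplicit false

namespace Pool.Agent.N735.IT

open Finset Filter

/-- the pattern relative to its least element -/
theorem cnt_shift (a b c : ℤ) (T : Finset ℕ) (t : ℕ) (hmin : ∀ e ∈ T, t ≤ e) (R : ℕ) (x : ℝ) :
    cnt a b c t T R x ≤ cnt a b c 0 ((T.erase t).image (fun e => e - t)) R x := by
  unfold cnt
  apply Set.ncard_le_ncard _ (PS_finite _ _ _ _ _ _ _)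
  rintro q ⟨h3, h4, h5, h6⟩
  refine ⟨h3, h4, fun j hj => ?_, h6⟩
  rw [h5 j hj, zero_add]
  rw [mem_Icc] at hj
  constructor
  · intro h6
    exact mem_image.2 ⟨t + j, mem_erase.2 ⟨by omega, h6⟩, by omega⟩
  · intro h6
    obtain ⟨e, he, hej⟩ := mem_image.1 h6
    obtain ⟨h7, h8⟩ := mem_erase.1 he
    have h9 := hmin e h8
    have : t + j = e := by omega
    rwa [this]

theorem shift_sub {S T : Finset ℕ} {t : ℕ} (hT : T ⊆ S) (hT2 : 2 ≤ T.card)
    (ht : t ∈ T) (hmin : ∀ e ∈ T, t ≤ e) : ((T.erase t).image (fun e => e - t)).Nonempty ∧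
      t ∈ S ∧ ∀ j ∈ (T.erase t).image (fun e => e - t), 1 ≤ j ∧ t + j ∈ S := by
  refine ⟨?_, hT ht, ?_⟩
  · rw [Finset.image_nonempty, ← card_pos, card_erase_of_mem ht]
    omega
  · intro j hj
    obtain ⟨e, he, rfl⟩ := mem_image.1 hj
    obtain ⟨h3, h4⟩ := mem_erase.1 he
    have h5 := hmin e h4
    refine ⟨by omega, ?_⟩
    rw [Nat.add_sub_cancel' h5]
    exact hT h4

/-- the patterns, for a given set of 45 exponents -/
theorem patterns {a b c : ℤ} (hadm : Adm a b c) (S : Finset ℕ) (hS : S.card = 45)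
    (hcls : ∀ p : ℕ, p.Prime → 3 ≤ p → p ≤ 43 → (p : ℤ) ∣ a - b → ¬ (p : ℤ) ∣ c →
      ∃ r : ℕ, ∀ e ∈ S, ¬ e ≡ r [MOD p]) :
    (∀ R : ℕ, ∀ᶠ x : ℝ in atTop, ∃ T : Finset ℕ, T.Nonempty ∧
        (∃ t ∈ S, ∀ j ∈ T, 1 ≤ j ∧ t + j ∈ S) ∧
        x / Real.log x ^ (B45 + 1) ≤ cnt a b c 0 T R x) ∧
      ∃ T : Finset ℕ, T.Nonempty ∧ (∃ t ∈ S, ∀ j ∈ T, 1 ≤ j ∧ t + j ∈ S) ∧
        ∀ R : ℕ, ∃ᶠ x : ℝ in atTop, x / Real.log x ^ (B45 + 1) ≤ cnt a b c 0 T R x := by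
  constructor
  · intro R
    filter_upwards [every_scale hadm S hS hcls R] with x hx
    obtain ⟨T, hTS, hT2, t, ht, hmin, h⟩ := hx
    obtain ⟨h3, h4, h5⟩ := shift_sub hTS hT2 ht hmin
    exact ⟨_, h3, ⟨t, h4, h5⟩, h.trans (by exact_mod_cast cnt_shift a b c T t hmin R x)⟩
  · obtain ⟨T, hTS, hT2, t, ht, hmin, h⟩ := one_pattern hadm S hS hcls
    obtain ⟨h3, h4, h5⟩ := shift_sub hTS hT2 ht hmin
    exact ⟨_, h3, ⟨t, h4, h5⟩, fun R => (h R).mono fun x hx =>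
      hx.trans (by exact_mod_cast cnt_shift a b c T t hmin R x)⟩

/-- the right-hand sides for `c = d (b - a)` -/
theorem cj_diff (a b d : ℤ) {j : ℕ} : cj a b (d * (b - a)) j = d * (b ^ j - a ^ j) := by
  induction j with
  | zero => simp [cj_zero]
  | succ j ih =>
    rw [cj_succ, ih, pow_succ, pow_succ]
    ring

theorem eq_iff (a b d : ℤ) (j : ℕ) (p q : ℤ) :
    a ^ j * p - b ^ j * q = cj a b (d * (b - a)) j ↔ a ^ j * (p + d) = b ^ j * (q + d) := by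
  rw [cj_diff]
  constructor
  · intro h
    linear_combination h
  · intro h
    linear_combination h

end Pool.Agent.N735.IT
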